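import Mathlib
import Pool.Agent.H48.MT.Targets

/-!
# MP_c80a4f_an: maps preserving the real part and the absolute value of the inner product (WG1)
-/

set_option linter.unusedSectionVars false

open InnerProductSpace
open scoped ComplexConjugate

namespace Pool.Agent.H92.MT

open Pool.Agent.H48.MT

section
variable {H : Type} [NormedAddCommGroup H] [InnerProductSpace ℂ H] [CompleteSpace H]

lemma re_self (x : H) : (inner ℂ x x).re = ‖x‖ ^ 2 := by
  rw [inner_self_eq_norm_sq_to_K]
  norm_cast

lemma re_comm (x y : H) : (inner ℂ x y).re = (inner ℂ y x).re := by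
  rw [← inner_conj_symm, Complex.conj_re]

lemma eq_of_re {x y : H} (h : (inner ℂ x x).re - 2 * (inner ℂ x y).re + (inner ℂ y y).re = 0) :
    x = y := by
  have h1 : (inner ℂ (x - y) (x - y)).re = 0 := by
    rw [inner_sub_left, inner_sub_right, inner_sub_right]
    simp only [Complex.sub_re]
    rw [re_comm y x]
    linarith
  rw [re_self] at h1
  have h2 : ‖x - y‖ = 0 := by
    have := pow_eq_zero_iff (two_ne_zero) |>.mp h1
    exact this
  exact sub_eq_zero.mp (norm_eq_zero.mp h2)

end

/-- **WG1** -/
theorem wg1 : T_WG1 := by
  intro H _ _ _ K V hre hab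
  have hadd : ∀ v w : K, V (v + w) = V v + V w := by
    intro v w
    apply eq_of_re
    rw [inner_add_right, inner_add_left, inner_add_right, inner_add_right]
    simp only [Complex.add_re]
    rw [hre, hre, hre, hre, hre, hre, hre]
    simp only [Submodule.coe_add]
    rw [inner_add_right, inner_add_left, inner_add_left]
    simp only [Complex.add_re]
    ring
  have hnorm : ∀ v : K, ‖V v‖ = ‖(v : H)‖ := by
    intro v
    have h1 := hre v v
    rw [re_self, re_self] at h1
    exact (sq_eq_sq₀ (norm_nonneg _) (norm_nonneg _)).mp h1
  have hreal : ∀ (t : ℝ) (v : K), V ((t : ℂ) • v) = (t : ℂ) • V v := by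
    intro t v
    apply eq_of_re
    rw [inner_smul_right, inner_smul_left, inner_smul_right, hre]
    simp only [Complex.re_ofReal_mul, Complex.conj_ofReal]
    rw [hre, hre]
    simp only [Submodule.coe_smul]
    rw [inner_smul_right, inner_smul_left, Complex.conj_ofReal]
    simp only [Complex.re_ofReal_mul]
    ring
  have hI : ∀ v : K, V (Complex.I • v) = Complex.I • V v ∨ V (Complex.I • v) = -(Complex.I • V v) := by
    intro v
    set z := inner ℂ (V v) (V (Complex.I • v)) with hz
    have h1 : z.re = 0 := by
      rw [hz, hre]
      simp only [Submodule.coe_smul]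
      rw [inner_smul_right, inner_self_eq_norm_sq_to_K]
      simp [← Complex.ofReal_pow]
    have h2 : ‖z‖ = ‖(v : H)‖ ^ 2 := by
      rw [hz, hab]
      simp only [Submodule.coe_smul]
      rw [inner_smul_right, norm_mul, Complex.norm_I, one_mul, inner_self_eq_norm_sq_to_K]
      simp
    have h3 : z.im ^ 2 = (‖(v : H)‖ ^ 2) ^ 2 := by
      rw [← h2, ← Complex.normSq_eq_norm_sq, Complex.normSq_apply, h1]
      ring
    have h4 : inner ℂ (V (Complex.I • v)) (V v) = conj z := (inner_conj_symm _ _).symm
    have h5 : (inner ℂ (V (Complex.I • v)) (V (Complex.I • v))).re = ‖(v : H)‖ ^ 2 := by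
      rw [re_self, hnorm]
      simp [norm_smul]
    have h6 : (inner ℂ (V v) (V v)).re = ‖(v : H)‖ ^ 2 := by
      rw [re_self, hnorm]
    rcases sq_eq_sq_iff_eq_or_eq_neg.mp h3 with h | h
    · left
      apply eq_of_re
      rw [inner_smul_right, inner_smul_left, inner_smul_right, h4, h5]
      simp only [Complex.mul_re, Complex.I_re, Complex.I_im, Complex.conj_re, Complex.conj_im,
        Complex.mul_im, Complex.conj_I, Complex.neg_re, Complex.neg_im]
      rw [h, h6]
      ring
    · right
      apply eq_of_re
      rw [inner_neg_right, inner_neg_left, inner_neg_right, neg_neg, inner_smul_right,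
        inner_smul_left, inner_smul_right, h4, h5]
      simp only [Complex.mul_re, Complex.I_re, Complex.I_im, Complex.conj_re, Complex.conj_im,
        Complex.mul_im, Complex.conj_I, Complex.neg_re, Complex.neg_im]
      rw [h, h6]
      ring
  have hsplit : ∀ (c : ℂ) (v : K), V (c • v) = (c.re : ℂ) • V v + (c.im : ℂ) • V (Complex.I • v) := by
    intro c v
    have h1 : c • v = (c.re : ℂ) • v + (c.im : ℂ) • (Complex.I • v) := by
      rw [smul_smul, ← add_smul, Complex.re_add_im]
    rw [h1, hadd, hreal, hreal]
  refine ⟨hadd, hnorm, ?_⟩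
  by_cases hall : ∀ v : K, V (Complex.I • v) = Complex.I • V v
  · left
    intro c v
    rw [hsplit, hall, smul_smul, ← add_smul, Complex.re_add_im]
  · right
    push Not at hall
    obtain ⟨v0, hv0⟩ := hall
    have hv1 : V (Complex.I • v0) = -(Complex.I • V v0) := (hI v0).resolve_left hv0
    have hneg : ∀ w : K, V (Complex.I • w) = -(Complex.I • V w) := by
      intro w
      rcases hI w with h | h
      · have h1 : V (Complex.I • (v0 + w)) = -(Complex.I • V v0) + Complex.I • V w := by
          rw [smul_add, hadd, hv1, h]
        rcases hI (v0 + w) with h2 | h2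
        · exfalso
          rw [h1, hadd, smul_add] at h2
          have h3 := add_right_cancel h2
          exact hv0 (by rw [hv1]; exact h3)
        · rw [h1, hadd, smul_add, neg_add] at h2
          have h3 := add_left_cancel h2
          rw [h]
          exact h3
      · exact h
    intro c v
    rw [hsplit, hneg, smul_neg, smul_smul]
    rw [← sub_eq_add_neg, ← sub_smul]
    congr 1
    apply Complex.ext <;> simp

end Pool.Agent.H92.MT
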