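import Mathlib
import Pool.Agent.H48.MT.Targets

/-!
# MP_c80a4f_an: Wigner's theorem (WIG)
-/

set_option linter.unusedSectionVars false

open InnerProductSpace
open scoped ComplexConjugate

namespace Pool.Agent.H92.MT

open Pool.Agent.H48.MT

section
variable {H : Type} [NormedAddCommGroup H] [InnerProductSpace ℂ H] [CompleteSpace H]

lemma par {p q : H} (hp : ‖p‖ = 1) (h : ‖inner ℂ p q‖ = ‖q‖) : q = inner ℂ p q • p := by
  have h1 : ‖q - inner ℂ p q • p‖ ^ 2 = 0 := by
    rw [norm_sub_sq (𝕜 := ℂ), norm_smul, hp, inner_smul_right, ← inner_conj_symm q p, mul_one, h]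
    have : RCLike.re (inner ℂ p q * conj (inner ℂ p q)) = ‖q‖ ^ 2 := by
      rw [Complex.mul_conj, Complex.normSq_eq_norm_sq, h]
      simp [← Complex.ofReal_pow]
    rw [this]
    ring
  have h2 : ‖q - inner ℂ p q • p‖ = 0 := (pow_eq_zero_iff two_ne_zero).mp h1
  exact sub_eq_zero.mp (norm_eq_zero.mp h2)

lemma ro_par {p q : H} (hp : ‖p‖ = 1) (hq : ‖q‖ = 1) (h : ‖inner ℂ p q‖ = 1) : ro p p = ro q q := by
  have h1 := par hp (by rw [h, hq])
  conv_rhs => rw [h1]
  rw [ro_smul_left, ro_smul_right, smul_smul, Complex.mul_conj, Complex.normSq_eq_norm_sq, h]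
  simp

lemma par_of_ro {p q : H} (hp : ‖p‖ = 1) (hq : ‖q‖ = 1) (h : ro p p = ro q q) : ‖inner ℂ p q‖ = 1 := by
  have h1 := congrArg (fun X : H →L[ℂ] H => ‖X q‖) h
  simp only [ro_apply, norm_smul] at h1
  rw [hp, hq, mul_one, mul_one, inner_self_eq_norm_sq_to_K, hq] at h1
  rw [h1]
  simp

/-- transitivity of being parallel -/
lemma par_trans {p q r : H} (hq : ‖q‖ = 1) (h1 : ‖inner ℂ p q‖ = 1)
    (h2 : ‖inner ℂ q r‖ = ‖r‖) : ‖inner ℂ p r‖ = ‖r‖ := by
  have e1 := par hq h2
  rw [e1, inner_smul_right, norm_mul, h1, mul_one, norm_smul, hq, mul_one]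

end

/-- **WIG** -/
theorem wig (h_wg1 : T_WG1) : T_WIG := by
  intro H _ _ _ pr hpr1 hpr2 hsur
  by_cases hex : ∃ e : H, ‖e‖ = 1
  swap
  · push Not at hex
    exact ⟨UA.one, fun x hx => absurd hx (hex x)⟩
  obtain ⟨e, he⟩ := hex
  set e' := pr e with he'
  have hne' : ‖e'‖ = 1 := hpr1 e he
  have hee : inner ℂ e e = (1 : ℂ) := by rw [inner_self_eq_norm_sq_to_K, he]; simp
  have hee' : inner ℂ e' e' = (1 : ℂ) := by rw [inner_self_eq_norm_sq_to_K, hne']; simp
  set K : Submodule ℂ H := (Submodule.span ℂ {e})ᗮ with hK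
  have hKm : ∀ v : H, v ∈ K ↔ inner ℂ e v = 0 := fun v => Submodule.mem_orthogonal_singleton_iff_inner_right
  have hKv : ∀ v : K, inner ℂ e (v : H) = 0 := fun v => (hKm v).mp v.2
  have hev : ∀ v : K, inner ℂ e (e + (v : H)) = 1 := by
    intro v
    rw [inner_add_right, hee, hKv, add_zero]
  have hN0 : ∀ v : K, e + (v : H) ≠ 0 := by
    intro v h
    have := hev v
    rw [h, inner_zero_right] at this
    exact zero_ne_one this
  have hN : ∀ v : K, 0 < ‖e + (v : H)‖ := fun v => norm_pos_iff.mpr (hN0 v)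
  -- the unit vector of e + v
  set u : K → H := fun v => ((‖e + (v : H)‖ : ℂ)⁻¹) • (e + (v : H)) with hu
  have hu1 : ∀ v, ‖u v‖ = 1 := by
    intro v
    simp only [hu]
    rw [norm_smul, norm_inv, Complex.norm_real, norm_norm, inv_mul_cancel₀ (hN v).ne']
  have hue : ∀ v, inner ℂ e (u v) = (‖e + (v : H)‖ : ℂ)⁻¹ := by
    intro v
    simp only [hu]
    rw [inner_smul_right, hev, mul_one]
  set a : K → ℂ := fun v => inner ℂ e' (pr (u v)) with ha
  have ha1 : ∀ v, ‖a v‖ = ‖e + (v : H)‖⁻¹ := by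
    intro v
    simp only [ha, he']
    rw [hpr2 e (u v) he (hu1 v), hue, norm_inv, Complex.norm_real, norm_norm]
  have ha0 : ∀ v, a v ≠ 0 := by
    intro v h
    have := ha1 v
    rw [h, norm_zero] at this
    exact (inv_ne_zero (hN v).ne') this.symm
  set X : K → H := fun v => (a v)⁻¹ • pr (u v) with hX
  have hXn : ∀ v, ‖X v‖ = ‖e + (v : H)‖ := by
    intro v
    simp only [hX]
    rw [norm_smul, norm_inv, ha1, inv_inv, hpr1 _ (hu1 v), mul_one]
  have hXe : ∀ v, inner ℂ e' (X v) = 1 := by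
    intro v
    simp only [hX]
    rw [inner_smul_right]
    exact inv_mul_cancel₀ (ha0 v)
  set V : K → H := fun v => X v - e' with hV
  have hXV : ∀ v, X v = e' + V v := fun v => by simp [hV]
  have hVe : ∀ v, inner ℂ e' (V v) = 0 := by
    intro v
    simp only [hV]
    rw [inner_sub_right, hXe, hee', sub_self]
  have hVe2 : ∀ v, inner ℂ (V v) e' = 0 := by
    intro v
    rw [← inner_conj_symm, hVe, map_zero]
  -- (i)
  have h1 : ∀ v w : K, ‖1 + inner ℂ (V v) (V w)‖ = ‖1 + inner ℂ (v : H) (w : H)‖ := by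
    intro v w
    have e1 : inner ℂ (X v) (X w) = 1 + inner ℂ (V v) (V w) := by
      rw [hXV, hXV, inner_add_left, inner_add_right, inner_add_right, hee', hVe, hVe2]
      ring
    have e2 : inner ℂ (e + (v : H)) (e + (w : H)) = 1 + inner ℂ (v : H) (w : H) := by
      rw [inner_add_left, hev, inner_add_right, ← inner_conj_symm (v : H) e, hKv, map_zero, zero_add]
    rw [← e1, ← e2]
    simp only [hX]
    rw [inner_smul_left, inner_smul_right, norm_mul, norm_mul, hpr2 _ _ (hu1 v) (hu1 w), RCLike.norm_conj,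
      norm_inv, norm_inv, ha1, ha1, inv_inv, inv_inv]
    simp only [hu]
    rw [inner_smul_left, inner_smul_right, norm_mul, norm_mul, RCLike.norm_conj, norm_inv, norm_inv,
      Complex.norm_real, Complex.norm_real, norm_norm, norm_norm]
    have := (hN v).ne'
    have := (hN w).ne'
    field_simp
  -- norms
  have hnsq : ∀ v : K, ‖V v‖ = ‖(v : H)‖ := by
    intro v
    have e1 : ‖X v‖ ^ 2 = 1 + ‖V v‖ ^ 2 := by
      rw [hXV, norm_add_sq (𝕜 := ℂ), hVe, hne']
      simp
    have e2 : ‖e + (v : H)‖ ^ 2 = 1 + ‖(v : H)‖ ^ 2 := by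
      rw [norm_add_sq (𝕜 := ℂ), hKv, he]
      simp
    rw [hXn, e2] at e1
    have e3 : ‖V v‖ ^ 2 = ‖(v : H)‖ ^ 2 := by linarith
    exact (sq_eq_sq₀ (norm_nonneg _) (norm_nonneg _)).mp e3
  -- V v is parallel to pr of the normalised v
  set n : K → H := fun v => ((‖(v : H)‖ : ℂ)⁻¹) • (v : H) with hn
  have hn1 : ∀ v : K, (v : H) ≠ 0 → ‖n v‖ = 1 := by
    intro v hv
    simp only [hn]
    rw [norm_smul, norm_inv, Complex.norm_real, norm_norm, inv_mul_cancel₀ (norm_ne_zero_iff.mpr hv)]
  have hpar : ∀ v : K, (v : H) ≠ 0 → ‖inner ℂ (pr (n v)) (V v)‖ = ‖V v‖ := by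
    intro v hv
    have e0 : inner ℂ (pr (n v)) e' = 0 := by
      rw [← norm_eq_zero, he', hpr2 _ _ (hn1 v hv) he]
      simp only [hn]
      rw [inner_smul_left, ← inner_conj_symm, hKv]
      simp
    have e1 : inner ℂ (pr (n v)) (V v) = inner ℂ (pr (n v)) (X v) := by
      rw [hXV, inner_add_right, e0, zero_add]
    rw [e1, hnsq]
    simp only [hX]
    rw [inner_smul_right, norm_mul, hpr2 _ _ (hn1 v hv) (hu1 v), norm_inv, ha1, inv_inv]
    simp only [hn, hu]
    rw [inner_smul_left, inner_smul_right, inner_add_right, ← inner_conj_symm (v : H) e, hKv, map_zero,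
      zero_add, inner_self_eq_norm_sq_to_K, norm_mul, norm_mul, RCLike.norm_conj, norm_inv, norm_inv,
      Complex.norm_real, Complex.norm_real, norm_norm, norm_norm]
    have h3 := (hN v).ne'
    have h4 : ‖(v : H)‖ ≠ 0 := norm_ne_zero_iff.mpr hv
    have h5 : ‖((‖(v : H)‖ : ℂ)) ^ 2‖ = ‖(v : H)‖ ^ 2 := by
      rw [norm_pow, Complex.norm_real, norm_norm]
    have h6 : ‖((RCLike.ofReal ‖(v : H)‖ : ℂ)) ^ 2‖ = ‖(v : H)‖ ^ 2 := h5
    rw [h6]
    field_simp
  have h2 : ∀ v w : K, ‖inner ℂ (V v) (V w)‖ = ‖inner ℂ (v : H) (w : H)‖ := by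
    intro v w
    by_cases hv : (v : H) = 0
    · have : V v = 0 := by rw [← norm_eq_zero, hnsq, hv, norm_zero]
      rw [this, hv, inner_zero_left, inner_zero_left]
    by_cases hw : (w : H) = 0
    · have : V w = 0 := by rw [← norm_eq_zero, hnsq, hw, norm_zero]
      rw [this, hw, inner_zero_right, inner_zero_right]
    have e1 := par (hpr1 _ (hn1 v hv)) (hpar v hv)
    have e2 := par (hpr1 _ (hn1 w hw)) (hpar w hw)
    rw [e1, e2, inner_smul_left, inner_smul_right, norm_mul, norm_mul, RCLike.norm_conj, hpar v hv, hpar w hw,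
      hnsq, hnsq, hpr2 _ _ (hn1 v hv) (hn1 w hw)]
    simp only [hn]
    rw [inner_smul_left, inner_smul_right, norm_mul, norm_mul, RCLike.norm_conj, norm_inv, norm_inv,
      Complex.norm_real, Complex.norm_real, norm_norm, norm_norm]
    have h4 : ‖(v : H)‖ ≠ 0 := norm_ne_zero_iff.mpr hv
    have h5 : ‖(w : H)‖ ≠ 0 := norm_ne_zero_iff.mpr hw
    field_simp
  have hre : ∀ v w : K, (inner ℂ (V v) (V w)).re = (inner ℂ (v : H) (w : H)).re := by
    intro v w
    have e1 := h1 v w
    have e2 := h2 v w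
    have e3 : Complex.normSq (1 + inner ℂ (V v) (V w)) = Complex.normSq (1 + inner ℂ (v : H) (w : H)) := by
      rw [Complex.normSq_eq_norm_sq, Complex.normSq_eq_norm_sq, e1]
    have e4 : Complex.normSq (inner ℂ (V v) (V w)) = Complex.normSq (inner ℂ (v : H) (w : H)) := by
      rw [Complex.normSq_eq_norm_sq, Complex.normSq_eq_norm_sq, e2]
    simp only [Complex.normSq_apply, Complex.add_re, Complex.add_im, Complex.one_re, Complex.one_im] at e3 e4
    nlinarith
  obtain ⟨hadd, hnorm, hlin⟩ := h_wg1 H K V hre h2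
  -- s
  obtain ⟨s, hs, hsm⟩ : ∃ s : ℂ → ℂ, ((∀ c, s c = c) ∨ (∀ c, s c = conj c)) ∧
      ∀ (c : ℂ) (v : K), V (c • v) = s c • V v := by
    rcases hlin with h | h
    · exact ⟨id, Or.inl fun _ => rfl, h⟩
    · exact ⟨conj, Or.inr fun _ => rfl, h⟩
  have hs_add : ∀ c d, s (c + d) = s c + s d := by rcases hs with h | h <;> simp [h]
  have hs_mul : ∀ c d, s (c * d) = s c * s d := by rcases hs with h | h <;> simp [h]
  have hs_s : ∀ c, s (s c) = c := by rcases hs with h | h <;> simp [h]
  have hs_n : ∀ c, ‖s c‖ = ‖c‖ := by rcases hs with h | h <;> simp [h]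
  -- projection
  have hprj : ∀ x : H, x - inner ℂ e x • e ∈ K := by
    intro x
    rw [hKm, inner_sub_right, inner_smul_right, hee, mul_one, sub_self]
  set P : H → K := fun x => ⟨x - inner ℂ e x • e, hprj x⟩ with hP
  have hPadd : ∀ x y, P (x + y) = P x + P y := by
    intro x y
    apply Subtype.ext
    simp only [hP, Submodule.coe_add, inner_add_right, add_smul]
    abel
  have hPsm : ∀ (c : ℂ) x, P (c • x) = c • P x := by
    intro c x
    apply Subtype.ext
    simp only [hP, Submodule.coe_smul, inner_smul_right, smul_sub, smul_smul]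
  have hPx : ∀ x, x = inner ℂ e x • e + (P x : H) := by
    intro x
    simp only [hP]
    abel
  set U : H → H := fun x => s (inner ℂ e x) • e' + V (P x) with hU
  have hUadd : ∀ x y, U (x + y) = U x + U y := by
    intro x y
    simp only [hU]
    rw [inner_add_right, hs_add, add_smul, hPadd, hadd]
    abel
  have hUsm : ∀ (c : ℂ) x, U (c • x) = s c • U x := by
    intro c x
    simp only [hU]
    rw [inner_smul_right, hs_mul, hPsm, hsm, smul_add, smul_smul]
  have hUn : ∀ x, ‖U x‖ = ‖x‖ := by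
    intro x
    have e1 : ‖U x‖ ^ 2 = ‖inner ℂ e x‖ ^ 2 + ‖(P x : H)‖ ^ 2 := by
      simp only [hU]
      rw [norm_add_sq (𝕜 := ℂ), inner_smul_left, hVe, norm_smul, hs_n, hne', hnorm]
      simp
    have e2 : ‖x‖ ^ 2 = ‖inner ℂ e x‖ ^ 2 + ‖(P x : H)‖ ^ 2 := by
      conv_lhs => rw [hPx x]
      rw [norm_add_sq (𝕜 := ℂ), inner_smul_left, hKv, norm_smul, he]
      simp
    exact (sq_eq_sq₀ (norm_nonneg _) (norm_nonneg _)).mp (e1.trans e2.symm)
  have hU0 : U 0 = 0 := by rw [← norm_eq_zero, hUn, norm_zero]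
  have hUneg : ∀ x, U (-x) = -U x := by
    intro x
    have := hUadd x (-x)
    rw [add_neg_cancel, hU0] at this
    exact (neg_eq_of_add_eq_zero_right this.symm).symm
  have hUinj : Function.Injective U := by
    intro x y hxy
    have : ‖U (x - y)‖ = 0 := by
      rw [sub_eq_add_neg, hUadd, hUneg, hxy, add_neg_cancel, norm_zero]
    rw [hUn, norm_eq_zero] at this
    exact sub_eq_zero.mp this
  -- if x is a unit vector with a = inner e x nonzero then pr x is parallel to X (a⁻¹ x - e)
  have hparX : ∀ (x : H) (v : K) (c : ℂ), ‖x‖ = 1 → x = c • (e + (v : H)) → ‖inner ℂ (pr x) (X v)‖ = ‖X v‖ := by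
    intro x v c hx hxc
    have e1 : ‖c‖ * ‖e + (v : H)‖ = 1 := by rw [← norm_smul, ← hxc, hx]
    have e2 : ‖inner ℂ x (u v)‖ = 1 := by
      simp only [hu]
      rw [hxc, inner_smul_left, inner_smul_right, inner_self_eq_norm_sq_to_K, norm_mul, norm_mul,
        RCLike.norm_conj, norm_inv, Complex.norm_real, norm_norm]
      have h6 : ‖((RCLike.ofReal ‖e + (v : H)‖ : ℂ)) ^ 2‖ = ‖e + (v : H)‖ ^ 2 := by
        show ‖((‖e + (v : H)‖ : ℂ)) ^ 2‖ = ‖e + (v : H)‖ ^ 2
        rw [norm_pow, Complex.norm_real, norm_norm]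
      rw [h6, ← e1]
      have := (hN v).ne'
      field_simp
    simp only [hX]
    rw [inner_smul_right, norm_mul, norm_smul, hpr2 x _ hx (hu1 v), e2, hpr1 _ (hu1 v)]
  have hUsur : Function.Surjective U := by
    intro y
    set b := inner ℂ e' y with hb
    set w' := y - b • e' with hw'
    have hw'e : inner ℂ e' w' = 0 := by
      rw [hw', inner_sub_right, inner_smul_right, hee', mul_one, ← hb, sub_self]
    have hyw : inner ℂ e' (e' + w') = 1 := by rw [inner_add_right, hee', hw'e, add_zero]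
    have hyw0 : e' + w' ≠ 0 := by
      intro h
      rw [h, inner_zero_right] at hyw
      exact zero_ne_one hyw
    have hMpos : 0 < ‖e' + w'‖ := norm_pos_iff.mpr hyw0
    set t := ((‖e' + w'‖ : ℂ)⁻¹) • (e' + w') with ht
    have ht1 : ‖t‖ = 1 := by
      rw [ht, norm_smul, norm_inv, Complex.norm_real, norm_norm, inv_mul_cancel₀ hMpos.ne']
    obtain ⟨x, hx1, hx2⟩ := hsur t ht1
    have hpt := par_of_ro (hpr1 x hx1) ht1 hx2
    -- inner e x is not zero
    set c := inner ℂ e x with hc
    have hte : ‖inner ℂ e' t‖ ≠ 0 := by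
      rw [ht, inner_smul_right, hyw, mul_one, norm_inv, Complex.norm_real, norm_norm]
      exact inv_ne_zero hMpos.ne'
    have htp := par (hpr1 x hx1) (by rw [hpt, ht1] : ‖inner ℂ (pr x) t‖ = ‖t‖)
    have hc0 : c ≠ 0 := by
      intro h
      apply hte
      rw [htp, inner_smul_right, norm_mul, he', hpr2 e x he hx1, ← hc, h, norm_zero, mul_zero]
    have hvK : c⁻¹ • x - e ∈ K := by
      rw [hKm, inner_sub_right, inner_smul_right, hee, ← hc, inv_mul_cancel₀ hc0, sub_self]
    set v : K := ⟨c⁻¹ • x - e, hvK⟩ with hv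
    have hxv : x = c • (e + (v : H)) := by
      simp only [hv]
      rw [add_sub_cancel, smul_smul, mul_inv_cancel₀ hc0, one_smul]
    have hXv := par (hpr1 x hx1) (hparX x v c hx1 hxv)
    -- both are multiples of pr x with the same inner product with e'
    have hXe' : X v = e' + w' := by
      set p := pr x with hp
      set α := inner ℂ p (X v)
      set β := inner ℂ p t
      have e1 : α * inner ℂ e' p = 1 := by
        have := hXe v
        rw [hXv, inner_smul_right] at this
        exact this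
      have e2 : (‖e' + w'‖ : ℂ) * β * inner ℂ e' p = 1 := by
        have h5 : (‖e' + w'‖ : ℂ) • t = e' + w' := by
          rw [ht, smul_smul, mul_inv_cancel₀ (by exact_mod_cast hMpos.ne'), one_smul]
        have h6 := hyw
        rw [← h5, htp, inner_smul_right, inner_smul_right] at h6
        rw [mul_assoc]
        exact h6
      have hne : inner ℂ e' p ≠ 0 := right_ne_zero_of_mul_eq_one e1
      have e3 : α = (‖e' + w'‖ : ℂ) * β := mul_right_cancel₀ hne (e1.trans e2.symm)
      rw [hXv, e3, mul_smul, ← htp, ht, smul_smul, mul_inv_cancel₀ (by exact_mod_cast hMpos.ne'), one_smul]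
    have hVw : V v = w' := by
      have := hXV v
      rw [hXe'] at this
      exact (add_left_cancel this).symm
    refine ⟨s b • e + (v : H), ?_⟩
    have f1 : inner ℂ e (s b • e + (v : H)) = s b := by
      rw [inner_add_right, inner_smul_right, hee, hKv, mul_one, add_zero]
    have f2 : P (s b • e + (v : H)) = v := by
      apply Subtype.ext
      simp only [hP]
      rw [f1]
      abel
    simp only [hU]
    rw [f1, f2, hs_s, hVw, hw']
    abel
  refine ⟨⟨Equiv.ofBijective U ⟨hUinj, hUsur⟩, hUadd, hUn, s, hs, hUsm⟩, ?_⟩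
  intro x hx
  show ro (pr x) (pr x) = ro (U x) (U x)
  apply ro_par (hpr1 x hx) (by rw [hUn, hx])
  set c := inner ℂ e x with hc
  by_cases hc0 : c = 0
  · have hxK : x ∈ K := by rw [hKm]; exact hc0
    have hPx' : P x = ⟨x, hxK⟩ := by
      apply Subtype.ext
      simp only [hP]
      rw [← hc, hc0, zero_smul, sub_zero]
    have hUx : U x = V ⟨x, hxK⟩ := by
      simp only [hU]
      rw [← hc, hc0, hPx']
      have : s 0 = 0 := by rw [← norm_eq_zero, hs_n, norm_zero]
      rw [this, zero_smul, zero_add]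
    have hx0 : x ≠ 0 := by
      intro h
      rw [h, norm_zero] at hx
      exact zero_ne_one hx
    have hnx : n ⟨x, hxK⟩ = x := by
      simp only [hn]
      rw [hx]
      simp
    have := hpar ⟨x, hxK⟩ hx0
    rw [hnx, hnsq] at this
    rw [hUx, this]
    exact hx
  · have hvK : c⁻¹ • x - e ∈ K := by
      rw [hKm, inner_sub_right, inner_smul_right, hee, ← hc, inv_mul_cancel₀ hc0, sub_self]
    set v : K := ⟨c⁻¹ • x - e, hvK⟩ with hv
    have hxv : x = c • (e + (v : H)) := by
      simp only [hv]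
      rw [add_sub_cancel, smul_smul, mul_inv_cancel₀ hc0, one_smul]
    have hUev : U (e + (v : H)) = X v := by
      have f1 : inner ℂ e (e + (v : H)) = 1 := hev v
      have f2 : P (e + (v : H)) = v := by
        apply Subtype.ext
        simp only [hP]
        rw [f1, one_smul]
        abel
      have f3 : s 1 = 1 := by rcases hs with h | h <;> simp [h]
      simp only [hU]
      rw [f1, f2, f3, one_smul, hXV]
    have h7 := hparX x v c hx hxv
    have h8 : U x = s c • X v := by
      conv_lhs => rw [hxv]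
      rw [hUsm, hUev]
    rw [h8, inner_smul_right, norm_mul, h7, ← norm_smul, ← h8, hUn, hx]

end Pool.Agent.H92.MT
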