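import Mathlib
import Pool.Agent.H48.MT.Targets

/-!
# MP_c80a4f_an: locally proportional operators (LLD)
-/

set_option linter.unusedSectionVars false

open InnerProductSpace
open scoped ComplexConjugate

namespace Pool.Agent.H92.MT

open Pool.Agent.H48.MT

lemma lld1 {H : Type} [NormedAddCommGroup H] [InnerProductSpace ℂ H]
    (S T : H →L[ℂ] H) (h : ∀ x, ∃ c : ℂ, S x = c • T x) : ∃ c : ℂ, S = c • T := by
  by_cases hT : T = 0
  · refine ⟨0, ?_⟩
    ext x
    obtain ⟨c, hc⟩ := h x
    rw [hc, hT]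
    simp
  obtain ⟨x0, hx0⟩ : ∃ x0, T x0 ≠ 0 := by
    by_contra hcon
    push Not at hcon
    exact hT (ContinuousLinearMap.ext hcon)
  obtain ⟨c, hc⟩ := h x0
  refine ⟨c, ?_⟩
  ext y
  show S y = c • T y
  by_cases hy : ∃ t : ℂ, T y = t • T x0
  · obtain ⟨t, ht⟩ := hy
    obtain ⟨d, hd⟩ := h (y - t • x0)
    have h1 : T (y - t • x0) = 0 := by
      rw [map_sub, map_smul, ht, sub_self]
    rw [h1, smul_zero, map_sub, map_smul, sub_eq_zero] at hd
    rw [hd, ht, hc, smul_smul, smul_smul, mul_comm]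
  · obtain ⟨d, hd⟩ := h y
    obtain ⟨f, hf⟩ := h (x0 + y)
    rw [map_add, map_add, hc, hd, smul_add] at hf
    have h2 : (c - f) • T x0 = (f - d) • T y := by
      have : c • T x0 + d • T y - (f • T x0 + d • T y) = f • T x0 + f • T y - (f • T x0 + d • T y) := by
        rw [hf]
      rw [sub_smul, sub_smul]
      rw [add_sub_add_right_eq_sub, add_sub_add_left_eq_sub] at this
      exact this
    have h3 : f = d := by
      by_contra hne
      have h4 : f - d ≠ 0 := sub_ne_zero.mpr hne
      apply hy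
      refine ⟨(f - d)⁻¹ * (c - f), ?_⟩
      rw [mul_smul, h2, smul_smul, inv_mul_cancel₀ h4, one_smul]
    rw [h3, sub_self, zero_smul] at h2
    have h5 : c - d = 0 := (smul_eq_zero.mp h2).resolve_right hx0
    rw [hd, sub_eq_zero.mp h5]

/-- **LLD** -/
theorem lld : T_LLD := by
  intro H _ _ _
  refine ⟨lld1, ?_⟩
  intro S hS
  apply lld1 S 1
  intro x
  have h1 : S x ∈ (Submodule.span ℂ {x})ᗮᗮ := by
    rw [Submodule.mem_orthogonal']
    intro y hy
    rw [Submodule.mem_orthogonal_singleton_iff_inner_right] at hy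
    have := hS x y hy
    rw [← inner_conj_symm, this, map_zero]
  rw [Submodule.orthogonal_orthogonal, Submodule.mem_span_singleton] at h1
  obtain ⟨a, ha⟩ := h1
  exact ⟨a, by rw [← ha]; simp⟩

end Pool.Agent.H92.MT
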