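import Mathlib
import Pool.Agent.H48.MT.Targets

/-!
# MP_c80a4f_an: a square zero operator is determined up to a factor (ZL)
-/

set_option linter.unusedSectionVars false

open InnerProductSpace
open scoped ComplexConjugate

namespace Pool.Agent.H92.MT

open Pool.Agent.H48.MT

lemma jp_eq_zero_iff {H : Type} [NormedAddCommGroup H] [InnerProductSpace ℂ H] [CompleteSpace H]
    (A B : H →L[ℂ] H) : jp A B = 0 ↔ A * B + B * A = 0 := by
  unfold jp
  rw [smul_eq_zero]
  constructor
  · rintro (h | h)
    · norm_num at h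
    · exact h
  · exact Or.inr

lemma inner_star_left {H : Type} [NormedAddCommGroup H] [InnerProductSpace ℂ H] [CompleteSpace H]
    (M : H →L[ℂ] H) (x y : H) : inner ℂ (star M x) y = inner ℂ x (M y) := by
  rw [ContinuousLinearMap.star_eq_adjoint, ContinuousLinearMap.adjoint_inner_left]

/-- kernel inclusion -/
lemma zl_ker {H : Type} [NormedAddCommGroup H] [InnerProductSpace ℂ H] [CompleteSpace H]
    (M K : H →L[ℂ] H) (hM : M * M = 0) (hM0 : M ≠ 0) (hK : K * K = 0)
    (htest : ∀ a b : H, inner ℂ b a = 0 → jp (ro a b) M = 0 → jp (ro a b) K = 0)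
    (a : H) (ha : M a = 0) : K a = 0 := by
  by_cases ha0 : a = 0
  · rw [ha0, map_zero]
  obtain ⟨z, hz⟩ : ∃ z, star M z ≠ 0 := by
    by_contra hcon
    push Not at hcon
    apply hM0
    have : star M = 0 := ContinuousLinearMap.ext hcon
    exact star_eq_zero.mp this
  have hsM : star M * star M = 0 := by rw [← star_mul, hM, star_zero]
  set b := star M z with hbdef
  have hb : star M b = 0 := by
    have := congrArg (fun X : H →L[ℂ] H => X z) hsM
    simpa using this
  have hab : inner ℂ b a = 0 := by
    rw [hbdef, inner_star_left, ha, inner_zero_right]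
  have h1 := htest a b hab (by
    rw [jp_eq_zero_iff, ro_mul, mul_ro, ha, hb]
    simp)
  rw [jp_eq_zero_iff, ro_mul, mul_ro] at h1
  have h2 : inner ℂ (star K b) b • a + inner ℂ b b • K a = 0 := by
    have := congrArg (fun X : H →L[ℂ] H => X b) h1
    simpa using this
  have hbb : inner ℂ b b ≠ 0 := by
    rw [Ne, inner_self_eq_zero]
    exact hz
  have h3 : K a = (-(inner ℂ b b)⁻¹ * inner ℂ (star K b) b) • a := by
    have h4 : inner ℂ b b • K a = -(inner ℂ (star K b) b • a) := eq_neg_of_add_eq_zero_right h2
    rw [mul_smul, neg_smul, ← smul_neg, ← h4, smul_smul, inv_mul_cancel₀ hbb, one_smul]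
  set κ := -(inner ℂ b b)⁻¹ * inner ℂ (star K b) b
  have h5 : K (K a) = 0 := by
    have := congrArg (fun X : H →L[ℂ] H => X a) hK
    simpa using this
  rw [h3, map_smul, h3, smul_smul, smul_eq_zero] at h5
  have h6 : κ = 0 := by
    rcases h5 with h | h
    · exact mul_self_eq_zero.mp h
    · exact absurd h ha0
  rw [h3, h6, zero_smul]

lemma mem_span_of_orth {H : Type} [NormedAddCommGroup H] [InnerProductSpace ℂ H] [CompleteSpace H]
    (u w : H) (h : ∀ y, inner ℂ y u = 0 → inner ℂ y w = 0) : ∃ c : ℂ, w = c • u := by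
  have h1 : w ∈ (Submodule.span ℂ {u})ᗮᗮ := by
    rw [Submodule.mem_orthogonal]
    intro y hy
    rw [Submodule.mem_orthogonal_singleton_iff_inner_left] at hy
    exact h y hy
  rw [Submodule.orthogonal_orthogonal, Submodule.mem_span_singleton] at h1
  obtain ⟨a, ha⟩ := h1
  exact ⟨a, ha.symm⟩

lemma mem_span_pair_of_orth {H : Type} [NormedAddCommGroup H] [InnerProductSpace ℂ H]
    [CompleteSpace H] (u v w : H) (h : ∀ y, inner ℂ y u = 0 → inner ℂ y v = 0 → inner ℂ y w = 0) :
    ∃ c d : ℂ, c • u + d • v = w := by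
  have h1 : w ∈ (Submodule.span ℂ {u, v})ᗮᗮ := by
    rw [Submodule.mem_orthogonal]
    intro y hy
    rw [Submodule.mem_orthogonal'] at hy
    exact h y (hy u (Submodule.subset_span (by simp))) (hy v (Submodule.subset_span (by simp)))
  have hfin : FiniteDimensional ℂ (Submodule.span ℂ ({u, v} : Set H)) :=
    FiniteDimensional.span_of_finite ℂ (by simp)
  rw [Submodule.orthogonal_orthogonal, Submodule.mem_span_pair] at h1
  exact h1

/-- **ZL** -/
theorem zl (h_lld : T_LLD) : T_ZL := by
  intro H _ _ _ M K hM hM0 hK htest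
  have hsM : star M * star M = 0 := by rw [← star_mul, hM, star_zero]
  have hsK : star K * star K = 0 := by rw [← star_mul, hK, star_zero]
  have htest1 : ∀ a b : H, inner ℂ b a = 0 → jp (ro a b) M = 0 → jp (ro a b) K = 0 := by
    intro a b hab hj
    have h1 := htest a b 0 0 hab (by simp) (by simp [hab]) (by simpa using hj)
    simpa using h1
  have hker : ∀ a, M a = 0 → K a = 0 := zl_ker M K hM hM0 hK htest1
  have hkers : ∀ a, star M a = 0 → star K a = 0 := by
    apply zl_ker (star M) (star K) hsM (by rwa [Ne, star_eq_zero]) hsK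
    intro a b hab hj
    have h1 : jp (ro b a) M = 0 := by
      have := congrArg star hj
      rw [star_jp, star_ro, star_star, star_zero] at this
      exact this
    have h2 := htest1 b a (by rw [← inner_conj_symm, hab, map_zero]) h1
    have := congrArg star h2
    rw [star_jp, star_ro, star_zero] at this
    exact this
  have hMM : ∀ x, M (M x) = 0 := by
    intro x
    have := congrArg (fun X : H →L[ℂ] H => X x) hM
    simpa using this
  have hsMM : ∀ x, star M (star M x) = 0 := by
    intro x
    have := congrArg (fun X : H →L[ℂ] H => X x) hsM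
    simpa using this
  -- (2)
  have hrel : ∀ x b : H, inner ℂ b (M x) = 0 → inner ℂ b x = 0 →
      ro (M x) (star K b) = ro (K x) (star M b) := by
    intro x b h1 h2
    have e1 : inner ℂ (star M b) (-x) = 0 := by
      rw [inner_neg_right, inner_star_left, h1, neg_zero]
    have e2 : inner ℂ b (-x) = 0 := by rw [inner_neg_right, h2, neg_zero]
    have e3 : inner ℂ (star M b) (M x) = 0 := by rw [inner_star_left, hMM, inner_zero_right]
    have h3 := htest (M x) b (-x) (star M b) h1 e1
      (by
        rw [mul_add, add_mul, add_mul, ro_mul_ro, ro_mul_ro, ro_mul_ro, ro_mul_ro, h1, e1, e2, e3]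
        simp)
      (by
        rw [jp_eq_zero_iff, add_mul, mul_add, ro_mul, ro_mul, mul_ro, mul_ro, hMM, hsMM]
        simp)
    rw [jp_eq_zero_iff, add_mul, mul_add, ro_mul, ro_mul, mul_ro, mul_ro, hker _ (hMM x),
      hkers _ (hsMM b), map_neg] at h3
    simp only [ro_zero_right, ro_zero_left, add_zero, zero_add, ro_neg_left] at h3
    exact sub_eq_zero.mp (by rw [sub_eq_add_neg]; exact h3)
  -- (3)
  apply (h_lld H).1 K M
  intro x
  by_cases hx : M x = 0
  · exact ⟨0, by rw [hker x hx, zero_smul]⟩
  by_cases hb : ∃ b, inner ℂ b (M x) = 0 ∧ inner ℂ b x = 0 ∧ star M b ≠ 0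
  · obtain ⟨b, hb1, hb2, hb3⟩ := hb
    have h1 := congrArg (fun X : H →L[ℂ] H => X (star M b)) (hrel x b hb1 hb2)
    simp only [ro_apply] at h1
    have hne : inner ℂ (star M b) (star M b) ≠ 0 := by
      rw [Ne, inner_self_eq_zero]
      exact hb3
    refine ⟨(inner ℂ (star M b) (star M b))⁻¹ * inner ℂ (star K b) (star M b), ?_⟩
    rw [mul_smul, h1, smul_smul, inv_mul_cancel₀ hne, one_smul]
  · push Not at hb
    -- the range of M is spanned by M x
    have hran : ∀ z, ∃ t : ℂ, M z = t • M x := by
      intro z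
      obtain ⟨c, d, hcd⟩ := mem_span_pair_of_orth x (M x) (M z) (by
        intro y h1 h2
        rw [← inner_star_left, hb y h2 h1, inner_zero_left])
      have h4 : M (M z) = 0 := hMM z
      rw [← hcd, map_add, map_smul, map_smul, hMM, smul_zero, add_zero, smul_eq_zero] at h4
      have hc : c = 0 := h4.resolve_right hx
      rw [hc, zero_smul, zero_add] at hcd
      exact ⟨d, hcd.symm⟩
    obtain ⟨c, hc⟩ := mem_span_of_orth (M x) (K x) (by
      intro y hy
      have h5 : star M y = 0 := by
        apply ext_inner_right ℂ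
        intro z
        obtain ⟨t, ht⟩ := hran z
        rw [inner_star_left, ht, inner_smul_right, hy, mul_zero, inner_zero_left]
      rw [← inner_star_left, hkers y h5, inner_zero_left])
    exact ⟨c, hc⟩

end Pool.Agent.H92.MT
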